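import Pool.Agent.Work.MP_adbfe6_an.Fin

/-!
# Pugh-Shub for dominated skew products with linear structure group over toral automorphisms

Let `M` be a hyperbolic integer matrix with inverse `M'`, `G` a closed subgroup of the units of a
finite-dimensional real normed algebra `R` (any closed linear group), `φ : 𝕋^d → G` Lipschitz and
dominated by `M`. Then the stable and unstable holonomies of `φ` exist in `G`, and for every compact
metrizable `G`-space `N` with a `G`-invariant probability measure `μ` the skew product
`(x, y) ↦ (M x, φ x • y)` on `𝕋^d × N` is mixing, in particular ergodic, as soon as it is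
essentially accessible. There is no center bunching condition.
-/

open MeasureTheory

/-- **Essential accessibility implies ergodicity and mixing for dominated skew products with linear
structure group over hyperbolic toral automorphisms.** -/
theorem Pool.Agent.Results.MP_adbfe6_an.DominatedSkew.result {d : ℕ}
    {M M' : Matrix (Fin d) (Fin d) ℤ} (h : PSG.Hyp M M')
    {R : Type*} [NormedRing R] [NormedAlgebra ℝ R] [FiniteDimensional ℝ R]
    {G : Subgroup Rˣ} (hG : IsClosed (G : Set Rˣ))
    {φ : PSG.Tor d → G} (hφ : PSG.LipCocycle φ) (hdom : PSG.Dominated M M' φ) :
    PSG.PughShubHol M M' φ :=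
  PSG.main_linear h hG hφ hdom
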