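import Pool.Agent.Work.MP_adbfe6_an.Ext.Mixing

/-!
# MP_adbfe6_an: skew products over affine maps of homogeneous spaces, without centre bunching
-/

namespace Pool.Agent.Results.MP_adbfe6_an.HomogeneousBase

open MeasureTheory Pool.Agent.Work.MP_adbfe6_an.Ext

/-- Essential accessibility implies ergodicity, and even mixing, for skew products
`f (x, y) = (T x, a x • y)` over an affine map `T` of a compact homogeneous space `X` of a locally
compact group `L` (for example a hyperbolic automorphism of a nilmanifold, or a partially hyperbolic
translation of `L ⧸ Γ`), with fibre maps in a locally compact group `G` of measure preserving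
homeomorphisms of `N`, if the stable and unstable directions `Es`, `Eu` are dominated by the fibres
and generate `L`. There is no bunching condition. -/
theorem result {L X G N : Type} [Group L] [TopologicalSpace L] [IsTopologicalGroup L]
    [LocallyCompactSpace L] [PolishSpace L] [MetricSpace X] [CompactSpace X] [MeasurableSpace X]
    [BorelSpace X] [MulAction L X] [ContinuousSMul L X] [Group G] [TopologicalSpace G]
    [IsTopologicalGroup G] [LocallyCompactSpace G] [MulAction G N] [MetricSpace N]
    [CompactSpace N] [MeasurableSpace N] [BorelSpace N] [ContinuousSMul G N]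
    {m : Measure X} [IsProbabilityMeasure m] {ν : Measure N} [IsProbabilityMeasure ν]
    {T : X ≃ₜ X} {α : L ≃* L} {a : X → G} {Es Eu : Subgroup L} {κs κu : ℕ → ℝ}
    (hB : Base m T α Es Eu) (hF : Fibre (G := G) N ν) (hPH : PH N T α a Es Eu κs κu)
    (hE : EssAcc N T a Es Eu κs κu (m.prod ν)) :
    Ergodic (skew T a : X × N → X × N) (m.prod ν) ∧
      Mixing (skew T a : X × N → X × N) (m.prod ν) :=
  main hB hF hPH hE

end Pool.Agent.Results.MP_adbfe6_an.HomogeneousBase
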