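import Pool.Agent.Work.MP_adbfe6_an.SK.One

/-!
# MP_adbfe6_an: ergodicity of partially hyperbolic skew products is decided in one fibre
-/

namespace Pool.Agent.Results.MP_adbfe6_an.OneFibre

open MeasureTheory Pool.Agent.SKP

/-- Let `f (x, z) = (A x, g x z)` be a skew product over a hyperbolic automorphism `A` of the torus,
with arbitrary measure preserving fibre maps, which is partially hyperbolic with the fibres as
centre; there is no bunching condition. Fix one fibre, over `x₀`, and an open subset `U` of it,
which is either the whole fibre, or has positive measure if `f` is essentially accessible. Then `f`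
is ergodic if and only if the measurable subsets `X` of this fibre which are almost invariant under
all closed paths (made of stable and unstable holonomies and of steps of `f`) are null or of full
measure in `U`. -/
theorem result {d : ℕ} {N : Type} [MetricSpace N] [CompactSpace N] [MeasurableSpace N]
    [BorelSpace N] (A : HypAut d) (D : Fibres A N) (ν : Measure N) [IsProbabilityMeasure ν]
    (hg : ∀ x, MeasurePreserving (D.g x) ν ν) (x₀ : Tor d) (U : Set N) (hU : IsOpen U)
    (h : U = Set.univ ∨ (ν U ≠ 0 ∧ EssAccessible A D.g (volume.prod ν))) :
    Ergodic (skew A.M D.g) (volume.prod ν) ↔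
      ∀ X : Set N, MeasurableSet X → (∀ R, FibreMap A D.g x₀ x₀ R → R ⁻¹' X =ᵐ[ν] X) →
        ν (U ∩ X) = 0 ∨ ν (U \ X) = 0 :=
  one_fibre D hg x₀ U hU h

end Pool.Agent.Results.MP_adbfe6_an.OneFibre
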