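import Pool.Agent.Work.MP_adbfe6_an.Tow.Ess

/-!
# MP_adbfe6_an: towers of extensions of hyperbolic toral automorphisms, without centre bunching
-/

namespace Pool.Agent.Results.MP_adbfe6_an.TowersOfExtensions

open MeasureTheory Filter Topology Pool.PSTow

/-- Essential accessibility implies ergodicity, and even mixing, for towers of extensions
`f (x, y, w) = (A x, (φ_i (x, y_0, …, y_{i-1}) * β_i (y_i))_i, γ (x, y) • b w)` of a hyperbolic
automorphism of the torus, under the domination condition `kap < lam` only. -/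
theorem result {a k : ℕ} (K : Fin k → Type) [∀ i, Group (K i)] [∀ i, MetricSpace (K i)]
    [∀ i, CompactSpace (K i)] [∀ i, IsTopologicalGroup (K i)] [∀ i, MeasurableSpace (K i)]
    [∀ i, BorelSpace (K i)] (μ : ∀ i, Measure (K i)) [∀ i, IsProbabilityMeasure (μ i)]
    [∀ i, (μ i).IsMulLeftInvariant]
    (G N : Type) [Group G] [TopologicalSpace G] [IsTopologicalGroup G] [LocallyCompactSpace G]
    [SecondCountableTopology G] [T2Space G] [MetricSpace N] [CompactSpace N] [MeasurableSpace N]
    [BorelSpace N] [MulAction G N] [ContinuousSMul G N] (ν : Measure N) [IsProbabilityMeasure ν]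
    (b : N ≃ₜ N) (hG : TopLevel G ν b)
    (A B : Matrix (Fin a) (Fin a) ℤ) (Es Eu : Submodule ℝ (Fin a → ℝ)) (D lam kap ρ : ℝ)
    (hA : HypSplit A B Es Eu D lam) (hk0 : 0 ≤ kap) (hkl : kap < lam)
    (hρ0 : 0 ≤ ρ) (hρ1 : ρ < 1) (hρ : ρ * kap < 1)
    (f : Sp a K N ≃ₜ Sp a K N) (hf : IsTower G A b f)
    (hd : Dynamics f (prodMeasure a μ ν) Prod.fst lower k kap ρ) :
    ErgodicMixing f (prodMeasure a μ ν) := by
  have hr : ∀ i, (μ i).IsMulRightInvariant := fun i => right_of_left (μ i)
  exact tower hA hG.closed hG.norm hf hd.growth hk0 hkl hρ0 hρ1 hρ μ ν hG.pres hG.bpres hd.low hd.ess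

end Pool.Agent.Results.MP_adbfe6_an.TowersOfExtensions
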